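import Mathlib

set_option autoImplicit false

/-! Separability of finitely generated (here: cyclic) subgroups of free groups, in the form: if
`y ∉ ⟨f⟩` then `ψ y ∉ ⟨ψ f⟩` for some homomorphism `ψ` to a finite group. -/

namespace Pool.Agent.W5h62.VRC


variable {α : Type} [DecidableEq α]

section perm

variable {X Y : Type} [Finite X]

open Classical in
/-- A partial injection of a finite set, induced by an injective map `σ` of a larger set, extends
to a permutation. -/
theorem exists_perm_extend (i : X → Y) (hi : Function.Injective i) (σ : Equiv.Perm Y) :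
    ∃ τ : Equiv.Perm X, ∀ x y : X, i y = σ (i x) → τ x = y := by
  have : Fintype X := Fintype.ofFinite X
  let p : X → Prop := fun x => ∃ y, i y = σ (i x)
  let q : X → Prop := fun y => ∃ x, i y = σ (i x)
  let e : {x // p x} ≃ {y // q y} :=
    { toFun := fun x => ⟨x.2.choose, x.1, x.2.choose_spec⟩
      invFun := fun y => ⟨y.2.choose, y.1, y.2.choose_spec⟩
      left_inv := by
        intro x
        apply Subtype.ext
        have h1 := x.2.choose_spec
        have h2 : ∃ x', i x.2.choose = σ (i x') := ⟨x.1, h1⟩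
        have h3 := h2.choose_spec
        exact (hi (σ.injective (h1.symm.trans h3))).symm
      right_inv := by
        intro y
        apply Subtype.ext
        have h1 := y.2.choose_spec
        have h2 : ∃ y', i y' = σ (i y.2.choose) := ⟨y.1, h1⟩
        have h3 := h2.choose_spec
        exact hi (h3.trans h1.symm) }
  refine ⟨e.extendSubtype, ?_⟩
  intro x y hxy
  have hx : p x := ⟨y, hxy⟩
  rw [Equiv.extendSubtype_apply_of_mem e x hx]
  exact hi (hx.choose_spec.trans hxy.symm)

end perm

/-- **Cyclic subgroups of free groups are separable.** -/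
theorem exists_finite_sep (f y : FreeGroup α) (h : y ∉ Subgroup.zpowers f) :
    ∃ (Q : Type) (_ : Group Q) (_ : Finite Q) (ψ : FreeGroup α →* Q),
      ψ y ∉ Subgroup.zpowers (ψ f) := by
  let H := Subgroup.zpowers f
  let cs : List (α × Bool) → FreeGroup α ⧸ H := fun L => ((FreeGroup.mk L : FreeGroup α) : _ ⧸ H)
  let S : Set (FreeGroup α ⧸ H) := {c | ∃ L, (L <:+ f.toWord ∨ L <:+ y.toWord) ∧ cs L = c}
  have hS : S.Finite := by
    have h1 : {L : List (α × Bool) | L <:+ f.toWord ∨ L <:+ y.toWord}.Finite := by
      refine ((List.finite_toSet f.toWord.tails).union (List.finite_toSet y.toWord.tails)).subset ?_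
      rintro L (hL | hL)
      · left; exact (List.mem_tails _ _).mpr hL
      · right; exact (List.mem_tails _ _).mpr hL
    refine (h1.image cs).subset ?_
    rintro c ⟨L, hL, rfl⟩
    exact ⟨L, hL, rfl⟩
  have : Finite S := hS
  have hσ : ∀ s : α, ∃ τ : Equiv.Perm S, ∀ x y : S,
      (y : FreeGroup α ⧸ H) = MulAction.toPerm (FreeGroup.of s) (x : FreeGroup α ⧸ H) → τ x = y :=
    fun s => exists_perm_extend (fun x : S => (x : FreeGroup α ⧸ H)) Subtype.val_injective
      (MulAction.toPerm (FreeGroup.of s))
  choose τ hτ using hσ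
  let ψ : FreeGroup α →* Equiv.Perm S := FreeGroup.lift τ
  have hbase : cs [] ∈ S := ⟨[], Or.inl (List.nil_suffix), rfl⟩
  have key : ∀ W : List (α × Bool), (W = f.toWord ∨ W = y.toWord) →
      ∀ L : List (α × Bool), ∀ hL : L <:+ W, ∃ hm : cs L ∈ S,
        ψ (FreeGroup.mk L) ⟨cs [], hbase⟩ = ⟨cs L, hm⟩ := by
    intro W hW L
    induction L with
    | nil =>
      intro _
      refine ⟨hbase, ?_⟩
      have : (FreeGroup.mk [] : FreeGroup α) = 1 := rfl
      rw [this, map_one]; rfl
    | cons x L ih =>
      intro hL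
      have hL' : L <:+ W := (List.suffix_cons x L).trans hL
      obtain ⟨hm, hi⟩ := ih hL'
      have hm' : cs (x :: L) ∈ S := by
        refine ⟨x :: L, ?_, rfl⟩
        rcases hW with rfl | rfl
        · exact Or.inl hL
        · exact Or.inr hL
      refine ⟨hm', ?_⟩
      have e : (FreeGroup.mk (x :: L) : FreeGroup α) = FreeGroup.mk [x] * FreeGroup.mk L := by
        rw [FreeGroup.mul_mk]; rfl
      rw [e, map_mul, Equiv.Perm.mul_apply, hi]
      obtain ⟨s, b⟩ := x
      cases b with
      | true =>
        have e2 : (FreeGroup.mk [(s, true)] : FreeGroup α) = FreeGroup.of s := rfl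
        rw [e2]
        have : ψ (FreeGroup.of s) = τ s := FreeGroup.lift_apply_of
        rw [this]
        apply hτ
        change cs ((s, true) :: L) = FreeGroup.of s • cs L
        change (((FreeGroup.mk ((s, true) :: L) : FreeGroup α)) : FreeGroup α ⧸ H) = _
        rw [e, e2]
        rfl
      | false =>
        have e2 : (FreeGroup.mk [(s, false)] : FreeGroup α) = (FreeGroup.of s)⁻¹ := rfl
        rw [e2, map_inv]
        have : ψ (FreeGroup.of s) = τ s := FreeGroup.lift_apply_of
        rw [this, Equiv.Perm.inv_eq_iff_eq]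
        symm
        apply hτ
        change cs L = FreeGroup.of s • cs ((s, false) :: L)
        change _ = FreeGroup.of s • (((FreeGroup.mk ((s, false) :: L) : FreeGroup α)) :
          FreeGroup α ⧸ H)
        rw [e, e2, MulAction.Quotient.smul_coe, smul_eq_mul, mul_inv_cancel_left]
  refine ⟨Equiv.Perm S, inferInstance, inferInstance, ψ, ?_⟩
  intro hcon
  have hf : ψ f ⟨cs [], hbase⟩ = ⟨cs [], hbase⟩ := by
    obtain ⟨hm, hi⟩ := key f.toWord (Or.inl rfl) f.toWord (List.suffix_refl _)
    rw [FreeGroup.mk_toWord] at hi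
    rw [hi]
    apply Subtype.ext
    change ((FreeGroup.mk f.toWord : FreeGroup α) : FreeGroup α ⧸ H) =
      ((FreeGroup.mk [] : FreeGroup α) : FreeGroup α ⧸ H)
    rw [FreeGroup.mk_toWord, QuotientGroup.eq]
    have : (FreeGroup.mk [] : FreeGroup α) = 1 := rfl
    rw [this, mul_one]
    exact inv_mem (Subgroup.mem_zpowers f)
  have hy : ψ y ⟨cs [], hbase⟩ ≠ ⟨cs [], hbase⟩ := by
    obtain ⟨hm, hi⟩ := key y.toWord (Or.inr rfl) y.toWord (List.suffix_refl _)
    rw [FreeGroup.mk_toWord] at hi
    rw [hi]
    intro h2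
    apply h
    have h3 := congrArg Subtype.val h2
    change ((FreeGroup.mk y.toWord : FreeGroup α) : FreeGroup α ⧸ H) =
      ((FreeGroup.mk [] : FreeGroup α) : FreeGroup α ⧸ H) at h3
    rw [FreeGroup.mk_toWord, QuotientGroup.eq] at h3
    have : (FreeGroup.mk [] : FreeGroup α) = 1 := rfl
    rw [this, mul_one] at h3
    exact inv_mem_iff.mp h3
  have hst : Subgroup.zpowers (ψ f) ≤ MulAction.stabilizer (Equiv.Perm S) (⟨cs [], hbase⟩ : S) := by
    rw [Subgroup.zpowers_le]
    exact hf
  exact hy (hst hcon)

end Pool.Agent.W5h62.VRC
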