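import Mathlib
import Pool.Agent.W5h62.VRC.Sep

set_option autoImplicit false

/-! Gersten's group `F₃ ⋊ ℤ`: its cyclic subgroups are separable, but not all of them are virtual
retracts. -/

namespace Pool.Agent.W5h62.VRC

/-- The free group of rank three. -/
abbrev F : Type := FreeGroup (Fin 3)

/-- The first generator. -/
abbrev ga : F := FreeGroup.of 0
/-- The second generator. -/
abbrev gb : F := FreeGroup.of 1
/-- The third generator. -/
abbrev gc : F := FreeGroup.of 2

/-- The endomorphism `s_i ↦ s_i a^(k i)`, where `k = 0, 1, 2`. -/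
def phi (n : ℤ) : F →* F := FreeGroup.lift (fun i => FreeGroup.of i * ga ^ (n * (i : ℕ) : ℤ))

theorem phi_of (n : ℤ) (i : Fin 3) :
    phi n (FreeGroup.of i) = FreeGroup.of i * ga ^ (n * (i : ℕ) : ℤ) := FreeGroup.lift_apply_of

theorem phi_a (n : ℤ) : phi n ga = ga := by
  rw [phi_of]; simp

theorem phi_comp (n m : ℤ) : (phi n).comp (phi m) = phi (n + m) := by
  ext i
  rw [MonoidHom.comp_apply, phi_of, map_mul, map_zpow, phi_a, phi_of, phi_of, mul_assoc,
    ← zpow_add]
  congr 2
  ring

theorem phi_zero : phi 0 = MonoidHom.id F := by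
  ext i
  rw [phi_of]; simp

theorem phi_phi (n m : ℤ) (x : F) : phi n (phi m x) = phi (n + m) x := by
  rw [← phi_comp]; rfl

/-- `phi` as a homomorphism to the automorphism group. -/
def theta : Multiplicative ℤ →* MulAut F where
  toFun n :=
    { toFun := phi n.toAdd
      invFun := phi (-n.toAdd)
      left_inv := by intro x; rw [phi_phi, neg_add_cancel, phi_zero]; rfl
      right_inv := by intro x; rw [phi_phi, add_neg_cancel, phi_zero]; rfl
      map_mul' := map_mul _ }
  map_one' := by
    ext x
    change phi 0 x = x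
    rw [phi_zero]; rfl
  map_mul' n m := by
    ext x
    change phi (n.toAdd + m.toAdd) x = phi n.toAdd (phi m.toAdd x)
    rw [phi_phi]

theorem theta_apply (n : Multiplicative ℤ) (x : F) : theta n x = phi n.toAdd x := rfl

/-- Gersten's group. -/
abbrev G : Type := F ⋊[theta] Multiplicative ℤ

/-! ### Separability -/

/-- the intersection of the kernels of all homomorphisms to `Q` -/
def MQ (Q : Type) [Group Q] : Subgroup F := ⨅ ψ : F →* Q, ψ.ker

theorem mem_MQ {Q : Type} [Group Q] {x : F} : x ∈ MQ Q ↔ ∀ ψ : F →* Q, ψ x = 1 := by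
  simp [MQ, Subgroup.mem_iInf, MonoidHom.mem_ker]

instance (Q : Type) [Group Q] : (MQ Q).Normal := by
  constructor
  intro x hx g
  rw [mem_MQ] at hx ⊢
  intro ψ
  rw [map_mul, map_mul, hx ψ]; simp

theorem finiteIndex_MQ (Q : Type) [Group Q] [Finite Q] : (MQ Q).FiniteIndex := by
  have : Finite (F →* Q) := Finite.of_equiv (Fin 3 → Q) FreeGroup.lift
  exact Subgroup.finiteIndex_iInf (fun ψ => inferInstance)

theorem theta_MQ {Q : Type} [Group Q] (n : Multiplicative ℤ) {x : F} (hx : x ∈ MQ Q) :
    theta n x ∈ MQ Q := by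
  rw [mem_MQ] at hx ⊢
  intro ψ
  exact hx (ψ.comp (theta n).toMonoidHom)

/-- `MQ Q` inside `G`. -/
def NQ (Q : Type) [Group Q] : Subgroup G := (MQ Q).map SemidirectProduct.inl

theorem mem_NQ {Q : Type} [Group Q] {x : G} : x ∈ NQ Q ↔ x.left ∈ MQ Q ∧ x.right = 1 := by
  constructor
  · rintro ⟨y, hy, rfl⟩
    exact ⟨hy, rfl⟩
  · rintro ⟨h1, h2⟩
    refine ⟨x.left, h1, ?_⟩
    ext
    · rfl
    · exact h2.symm

instance (Q : Type) [Group Q] : (NQ Q).Normal := by
  constructor
  intro x hx g
  rw [mem_NQ] at hx ⊢
  obtain ⟨h1, h2⟩ := hx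
  constructor
  · have : (g * x * g⁻¹).left = g.left * theta g.right x.left * g.left⁻¹ := by
      simp [SemidirectProduct.mul_left, SemidirectProduct.inv_left, h2]
    rw [this]
    exact (inferInstance : (MQ Q).Normal).conj_mem _ (theta_MQ _ h1) _
  · simp [h2]

/-- a subgroup of `G` containing `NQ Q` and an element with nontrivial right part is of finite
index -/
theorem finiteIndex_of_NQ {Q : Type} [Group Q] [Finite Q] (K : Subgroup G) (hK : NQ Q ≤ K)
    (s : G) (hs : s ∈ K) (hr : s.right ≠ 1) : K.FiniteIndex := by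
  classical
  have hfin := finiteIndex_MQ Q
  -- `G` is a finite union of cosets
  set k : ℤ := s.right.toAdd with hk
  have hk0 : k ≠ 0 := by
    intro h
    apply hr
    have : s.right = Multiplicative.ofAdd k := rfl
    rw [this, h]; rfl
  have hfq : Finite (F ⧸ MQ Q) := Subgroup.finite_quotient_of_finiteIndex
  -- the finite set of representatives
  let f : (F ⧸ MQ Q) × Fin k.natAbs → G ⧸ K := fun p =>
    ((SemidirectProduct.inl p.1.out * SemidirectProduct.inr (Multiplicative.ofAdd ((p.2 : ℕ) : ℤ)) :
      G) : G ⧸ K)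
  have hf : Function.Surjective f := by
    intro x
    obtain ⟨g, rfl⟩ := QuotientGroup.mk_surjective x
    -- `g * s ^ j` has right part in the range
    have h1 : 0 ≤ (g.right.toAdd) % k := Int.emod_nonneg _ hk0
    have h2 : (g.right.toAdd) % k < |k| := Int.emod_lt_abs _ hk0
    set r : ℕ := ((g.right.toAdd) % k).toNat with hrr
    have h3 : (r : ℤ) = (g.right.toAdd) % k := Int.toNat_of_nonneg h1
    have h4 : r < k.natAbs := by
      zify; rw [h3]; exact h2
    set g' : G := g * s ^ (-((g.right.toAdd) / k)) with hg'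
    have h5 : g'.right = Multiplicative.ofAdd (r : ℤ) := by
      have : g'.right = g.right * s.right ^ (-((g.right.toAdd) / k)) := by
        rw [hg', SemidirectProduct.mul_right]
        congr 1
        exact map_zpow (SemidirectProduct.rightHom : G →* _) s _
      rw [this]
      apply Multiplicative.toAdd.injective
      rw [toAdd_mul, toAdd_zpow, toAdd_ofAdd, h3, smul_eq_mul]
      have := Int.emod_add_mul_ediv (g.right.toAdd) k
      rw [← hk]
      linarith
    refine ⟨⟨(g'.left : F ⧸ MQ Q), ⟨r, h4⟩⟩, ?_⟩
    have h6 : (g : G ⧸ K) = (g' : G ⧸ K) := by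
      rw [QuotientGroup.eq, hg', inv_mul_cancel_left]
      exact zpow_mem hs _
    rw [h6]
    change ((SemidirectProduct.inl (g'.left : F ⧸ MQ Q).out *
      SemidirectProduct.inr (Multiplicative.ofAdd (r : ℤ)) : G) : G ⧸ K) = (g' : G ⧸ K)
    obtain ⟨m, hm⟩ := QuotientGroup.mk_out_eq_mul (MQ Q) g'.left
    rw [hm, ← h5]
    have h7 : (g' : G) = SemidirectProduct.inl g'.left * SemidirectProduct.inr g'.right := by
      rw [SemidirectProduct.inl_left_mul_inr_right]
    have h10 : (SemidirectProduct.inl (m : F) : G) ∈ NQ Q := ⟨m, m.2, rfl⟩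
    have h11 : ((SemidirectProduct.inl (g'.left * (m : F)) * SemidirectProduct.inr g'.right : G))⁻¹ *
        (SemidirectProduct.inl g'.left * SemidirectProduct.inr g'.right) =
        (SemidirectProduct.inr g'.right)⁻¹ * (SemidirectProduct.inl (m : F))⁻¹ *
          ((SemidirectProduct.inr g'.right)⁻¹)⁻¹ := by
      rw [map_mul]; group
    rw [QuotientGroup.eq]
    apply hK
    have h12 : ((SemidirectProduct.inl (g'.left * (m : F)) * SemidirectProduct.inr g'.right : G))⁻¹ *
        g' = _ := (congrArg (fun z => ((SemidirectProduct.inl (g'.left * (m : F)) *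
          SemidirectProduct.inr g'.right : G))⁻¹ * z) h7).trans h11
    rw [h12]
    exact (inferInstance : (NQ Q).Normal).conj_mem _ (inv_mem h10) _
  have : Finite (G ⧸ K) := Finite.of_surjective f hf
  exact Subgroup.finiteIndex_of_finite_quotient

theorem exists_triv (Q : Type) [Group Q] [Finite Q] :
    ∃ n : Multiplicative ℤ, n ≠ 1 ∧ ∀ (ψ : F →* Q) (z : F), ψ (theta n z) = ψ z := by
  have : Finite (F →* Q) := Finite.of_equiv (Fin 3 → Q) FreeGroup.lift
  obtain ⟨n, m, hnm, he⟩ := Finite.exists_ne_map_eq_of_infinite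
    (fun n : Multiplicative ℤ => fun ψ : F →* Q => ψ.comp (theta n).toMonoidHom)
  refine ⟨n * m⁻¹, by rwa [Ne, mul_inv_eq_one], ?_⟩
  intro ψ z
  have h1 : ∀ (ψ : F →* Q) (z : F), ψ (theta n z) = ψ (theta m z) := fun ψ z =>
    DFunLike.congr_fun (congrFun he ψ) z
  have h2 := h1 ψ (theta m⁻¹ z)
  rw [← MulAut.mul_apply, ← map_mul, ← MulAut.mul_apply, ← map_mul, mul_inv_cancel, map_one] at h2
  exact h2

/-- the subgroup used for the separation of elements of the kernel -/
def KP (Q : Type) [Group Q] (f : F) : Subgroup G where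
  carrier := {x | x.left ∈ MQ Q ⊔ Subgroup.zpowers f ∧
    ∀ (ψ : F →* Q) (z : F), ψ (theta x.right z) = ψ z}
  one_mem' := by
    refine ⟨one_mem _, ?_⟩
    intro ψ z
    rw [SemidirectProduct.one_right, map_one]; rfl
  mul_mem' := by
    rintro x y ⟨h1, h2⟩ ⟨h3, h4⟩
    refine ⟨?_, ?_⟩
    · rw [SemidirectProduct.mul_left]
      apply mul_mem h1
      have : theta x.right y.left = (theta x.right y.left * y.left⁻¹) * y.left := by group
      rw [this]
      refine mul_mem (Subgroup.mem_sup_left ?_) h3
      rw [mem_MQ]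
      intro ψ
      rw [map_mul, h2, ← map_mul, mul_inv_cancel, map_one]
    · intro ψ z
      rw [SemidirectProduct.mul_right, map_mul, MulAut.mul_apply, h2, h4]
  inv_mem' := by
    rintro x ⟨h1, h2⟩
    have h3 : ∀ (ψ : F →* Q) (z : F), ψ (theta x.right⁻¹ z) = ψ z := by
      intro ψ z
      have := h2 ψ (theta x.right⁻¹ z)
      rw [← MulAut.mul_apply, ← map_mul, mul_inv_cancel, map_one] at this
      exact this.symm
    refine ⟨?_, ?_⟩
    · rw [SemidirectProduct.inv_left]
      have : theta x.right⁻¹ x.left⁻¹ = (theta x.right⁻¹ x.left⁻¹ * x.left) * x.left⁻¹ := by group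
      rw [this]
      refine mul_mem (Subgroup.mem_sup_left ?_) (inv_mem h1)
      rw [mem_MQ]
      intro ψ
      rw [map_mul, h3, ← map_mul, inv_mul_cancel, map_one]
    · intro ψ z
      rw [SemidirectProduct.inv_right, h3]

theorem NQ_le_KP (Q : Type) [Group Q] (f : F) : NQ Q ≤ KP Q f := by
  intro x hx
  rw [mem_NQ] at hx
  refine ⟨Subgroup.mem_sup_left hx.1, ?_⟩
  intro ψ z
  rw [hx.2, map_one]; rfl

theorem eq_inl {x : G} (h : x.right = 1) : x = SemidirectProduct.inl x.left := by
  ext
  · rfl
  · exact h

theorem rightHom_zpow (g : G) (m : ℤ) : (g ^ m).right = g.right ^ m :=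
  map_zpow (SemidirectProduct.rightHom : G →* _) g m

/-- **Cyclic subgroups of `G` are separable.** -/
theorem sep (g h : G) (hh : h ∉ Subgroup.zpowers g) :
    ∃ K : Subgroup G, K.FiniteIndex ∧ Subgroup.zpowers g ≤ K ∧ h ∉ K := by
  by_cases hg : g.right = 1
  · by_cases hr : h.right = 1
    · -- both in the free group
      have hy : h.left ∉ Subgroup.zpowers g.left := by
        intro hcon
        apply hh
        obtain ⟨n, hn⟩ := Subgroup.mem_zpowers_iff.mp hcon
        rw [eq_inl hg, eq_inl hr, ← hn, map_zpow]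
        exact Subgroup.zpow_mem_zpowers _ _
      obtain ⟨Q, _, _, ψ, hψ⟩ := exists_finite_sep g.left h.left hy
      obtain ⟨n, hn1, hn2⟩ := exists_triv Q
      refine ⟨KP Q g.left, ?_, ?_, ?_⟩
      · refine finiteIndex_of_NQ _ (NQ_le_KP Q g.left) (SemidirectProduct.inr n) ?_ hn1
        exact ⟨one_mem _, hn2⟩
      · rw [Subgroup.zpowers_le]
        refine ⟨Subgroup.mem_sup_right (Subgroup.mem_zpowers _), ?_⟩
        intro ψ z
        rw [hg, map_one]; rfl
      · rintro ⟨h1, -⟩
        apply hψ
        rw [Subgroup.mem_sup_of_normal_left] at h1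
        obtain ⟨m, hm, z, hz, e⟩ := h1
        rw [← e, map_mul, (mem_MQ.mp hm) ψ, one_mul]
        obtain ⟨j, hj⟩ := Subgroup.mem_zpowers_iff.mp hz
        rw [← hj, map_zpow]
        exact Subgroup.zpow_mem_zpowers _ _
    · -- separate by the exponent
      set l : ℤ := h.right.toAdd with hl
      have hl0 : l ≠ 0 := by
        intro e
        apply hr
        have : h.right = Multiplicative.ofAdd l := rfl
        rw [this, e]; rfl
      refine ⟨(Subgroup.zpowers (Multiplicative.ofAdd (|l| + 1))).comap SemidirectProduct.rightHom,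
        ?_, ?_, ?_⟩
      · refine finiteIndex_of_NQ (Q := Unit) _ ?_
          (SemidirectProduct.inr (Multiplicative.ofAdd (|l| + 1))) ?_ ?_
        · intro x hx
          rw [mem_NQ] at hx
          rw [Subgroup.mem_comap, SemidirectProduct.rightHom_eq_right, hx.2]
          exact one_mem _
        · rw [Subgroup.mem_comap, SemidirectProduct.rightHom_inr]
          exact Subgroup.mem_zpowers _
        · intro e
          have e2 := congrArg Multiplicative.toAdd e
          change |l| + 1 = 0 at e2
          have := abs_nonneg l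
          omega
      · rw [Subgroup.zpowers_le, Subgroup.mem_comap, SemidirectProduct.rightHom_eq_right, hg]
        exact one_mem _
      · intro hcon
        rw [Subgroup.mem_comap, SemidirectProduct.rightHom_eq_right] at hcon
        obtain ⟨j, hj⟩ := Subgroup.mem_zpowers_iff.mp hcon
        have e2 := congrArg Multiplicative.toAdd hj
        rw [toAdd_zpow, toAdd_ofAdd, smul_eq_mul, ← hl] at e2
        have h3 : (|l| + 1) ∣ l := ⟨j, by rw [mul_comm]; exact e2.symm⟩
        have h4 := Int.le_of_dvd (abs_pos.mpr hl0) ((dvd_abs _ _).mpr h3)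
        omega
  · by_cases hd : h.right ∈ Subgroup.zpowers g.right
    · obtain ⟨m, hm⟩ := Subgroup.mem_zpowers_iff.mp hd
      set y : G := (g ^ m)⁻¹ * h with hy
      have hyr : y.right = 1 := by
        rw [hy, SemidirectProduct.mul_right, SemidirectProduct.inv_right, rightHom_zpow, hm,
          inv_mul_cancel]
      have hy1 : y.left ≠ 1 := by
        intro e
        apply hh
        have h1 : y = 1 := by rw [eq_inl hyr, e, map_one]
        rw [hy, inv_mul_eq_one] at h1
        rw [← h1]
        exact Subgroup.zpow_mem_zpowers _ _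
      obtain ⟨Q, _, _, ψ, hψ⟩ := exists_finite_sep (1 : F) y.left (by
        rw [Subgroup.zpowers_one_eq_bot, Subgroup.mem_bot]; exact hy1)
      have hψ' : ψ y.left ≠ 1 := by
        intro e
        apply hψ
        rw [e]; exact one_mem _
      refine ⟨NQ Q ⊔ Subgroup.zpowers g, ?_, le_sup_right, ?_⟩
      · exact finiteIndex_of_NQ (Q := Q) _ le_sup_left g
          (Subgroup.mem_sup_right (Subgroup.mem_zpowers g)) hg
      · intro hcon
        have hyK : y ∈ NQ Q ⊔ Subgroup.zpowers g := by
          rw [hy]
          exact mul_mem (inv_mem (Subgroup.mem_sup_right (Subgroup.zpow_mem_zpowers _ _))) hcon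
        rw [Subgroup.mem_sup_of_normal_left] at hyK
        obtain ⟨n, hn, z, hz, e⟩ := hyK
        obtain ⟨j, hj⟩ := Subgroup.mem_zpowers_iff.mp hz
        have hn' := mem_NQ.mp hn
        have h1 : g.right ^ j = 1 := by
          have := congrArg (fun x : G => x.right) e
          simp only [SemidirectProduct.mul_right, hn'.2, one_mul, hyr, ← hj, rightHom_zpow] at this
          exact this
        have h2 : j = 0 := by
          have e2 := congrArg Multiplicative.toAdd h1
          rw [toAdd_zpow, toAdd_one, smul_eq_mul, mul_eq_zero] at e2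
          rcases e2 with e2 | e2
          · exact e2
          · exfalso; apply hg
            exact Multiplicative.toAdd.injective e2
        apply hψ'
        rw [← e, ← hj, h2, zpow_zero, mul_one]
        exact mem_MQ.mp hn'.1 ψ
    · refine ⟨(Subgroup.zpowers g.right).comap SemidirectProduct.rightHom, ?_, ?_, ?_⟩
      · refine finiteIndex_of_NQ (Q := Unit) _ ?_ g ?_ hg
        · intro x hx
          rw [mem_NQ] at hx
          rw [Subgroup.mem_comap, SemidirectProduct.rightHom_eq_right, hx.2]
          exact one_mem _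
        · rw [Subgroup.mem_comap, SemidirectProduct.rightHom_eq_right]
          exact Subgroup.mem_zpowers _
      · rw [Subgroup.zpowers_le, Subgroup.mem_comap, SemidirectProduct.rightHom_eq_right]
        exact Subgroup.mem_zpowers _
      · rw [Subgroup.mem_comap, SemidirectProduct.rightHom_eq_right]
        exact hd

end Pool.Agent.W5h62.VRC
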