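import Mathlib
import Pool.Agent.W5h62.VRC.Grp

set_option autoImplicit false

/-! The tree of Gersten's group. -/

namespace Pool.Agent.W5h62.VRC

section LevelTree

variable {V : Type} {T : SimpleGraph V} {par : V → V} {o : V}

/-- Descendants of `v` with respect to a parent function. -/
inductive Desc (par : V → V) (o v : V) : V → Prop
  | refl : Desc par o v v
  | step (w : V) : w ≠ o → Desc par o v (par w) → Desc par o v w

theorem Desc.le {lev : V → ℕ} (hlev : ∀ v, v ≠ o → lev (par v) < lev v) {v w : V}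
    (h : Desc par o v w) : lev v ≤ lev w := by
  induction h with
  | refl => exact le_rfl
  | step w hw _ ih => exact ih.trans (hlev w hw).le

theorem isTree_of_parent (lev : V → ℕ) (hpar : ∀ v, v ≠ o → T.Adj v (par v))
    (hlev : ∀ v, v ≠ o → lev (par v) < lev v)
    (hadj : ∀ u v, T.Adj u v → (u ≠ o ∧ par u = v) ∨ (v ≠ o ∧ par v = u)) : T.IsTree := by
  constructor
  · have h : ∀ (n : ℕ) (v : V), lev v ≤ n → T.Reachable v o := by
      intro n
      induction n with
      | zero =>
        intro v hv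
        by_cases hvo : v = o
        · rw [hvo]
        · have := hlev v hvo; omega
      | succ n ih =>
        intro v hv
        by_cases hvo : v = o
        · rw [hvo]
        · have := hlev v hvo
          exact (hpar v hvo).reachable.trans (ih _ (by omega))
    exact (SimpleGraph.connected_iff _).mpr
      ⟨fun u v => (h _ u le_rfl).trans (h _ v le_rfl).symm, ⟨o⟩⟩
  · have key : ∀ v, v ≠ o → ¬ (T \ SimpleGraph.fromEdgeSet {s(v, par v)}).Reachable v (par v) := by
      intro v hv hr
      have hinv : ∀ w, (T \ SimpleGraph.fromEdgeSet {s(v, par v)}).Reachable v w →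
          Desc par o v w := by
        intro w hw
        rw [SimpleGraph.reachable_iff_reflTransGen] at hw
        induction hw with
        | refl => exact Desc.refl
        | tail _ hbc ih =>
          rename_i a b _
          rw [SimpleGraph.sdiff_adj, SimpleGraph.fromEdgeSet_adj] at hbc
          obtain ⟨h1, h2⟩ := hbc
          rcases hadj a b h1 with ⟨_, h3⟩ | ⟨h3, h4⟩
          · cases ih with
            | refl =>
              exfalso
              apply h2
              rw [← h3]
              exact ⟨rfl, (hpar v hv).ne⟩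
            | step _ _ h5 => rwa [h3] at h5
          · exact Desc.step b h3 (by rw [h4]; exact ih)
      have h1 := (hinv _ hr).le hlev
      have h2 := hlev v hv
      omega
    rw [SimpleGraph.isAcyclic_iff_forall_adj_isBridge]
    intro u v huv
    rw [SimpleGraph.isBridge_iff]
    rcases hadj u v huv with ⟨hu, h⟩ | ⟨hv, h⟩
    · rw [← h]; exact key u hu
    · rw [← h]
      intro hr
      apply key v hv
      rw [Sym2.eq_swap]
      exact hr.symm

end LevelTree

/-! ### The vertex group -/

/-- the embedding of `ℤ²` -/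
def psi : Multiplicative (Fin 2 → ℤ) →* G where
  toFun v := ⟨ga ^ (v.toAdd 0), Multiplicative.ofAdd (v.toAdd 1)⟩
  map_one' := by
    ext
    · simp
    · simp
  map_mul' v w := by
    ext
    · rw [SemidirectProduct.mul_left]
      change ga ^ (v.toAdd 0 + w.toAdd 0) = ga ^ (v.toAdd 0) * phi (v.toAdd 1) (ga ^ (w.toAdd 0))
      rw [map_zpow, phi_a, zpow_add]
    · rw [SemidirectProduct.mul_right]
      rfl

theorem ga_zpow_inj {m n : ℤ} (h : ga ^ m = ga ^ n) : m = n := by
  have h1 : Function.Injective (fun n : ℤ => ga ^ n) := by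
    rw [injective_zpow_iff_not_isOfFinOrder]
    exact not_isOfFinOrder_of_isMulTorsionFree (FreeGroup.of_ne_one 0)
  exact h1 h

theorem psi_injective : Function.Injective psi := by
  intro v w h
  have h1 : ga ^ (v.toAdd 0) = ga ^ (w.toAdd 0) := congrArg SemidirectProduct.left h
  have h2 : Multiplicative.ofAdd (v.toAdd 1) = Multiplicative.ofAdd (w.toAdd 1) :=
    congrArg SemidirectProduct.right h
  have h3 := ga_zpow_inj h1
  have h4 : v.toAdd 1 = w.toAdd 1 := h2
  apply Multiplicative.toAdd.injective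
  funext i
  fin_cases i
  · exact h3
  · exact h4

/-- the base vertex group -/
def S : Subgroup G := psi.range

theorem mem_S {x : G} : x ∈ S ↔ x.left ∈ Subgroup.zpowers ga := by
  constructor
  · rintro ⟨v, rfl⟩
    exact Subgroup.zpow_mem_zpowers _ _
  · intro h
    obtain ⟨n, hn⟩ := Subgroup.mem_zpowers_iff.mp h
    refine ⟨Multiplicative.ofAdd ![n, x.right.toAdd], ?_⟩
    ext
    · change ga ^ (![n, x.right.toAdd] 0) = _
      simpa using hn
    · rfl

/-- the vertices of the tree -/
abbrev V : Type := G ⧸ S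

/-- the vertex of `g` -/
abbrev vt (g : G) : V := (g : G ⧸ S)

theorem vt_eq {g h : G} : vt g = vt h ↔ (g⁻¹ * h).left ∈ Subgroup.zpowers ga := by
  rw [QuotientGroup.eq, mem_S]

/-- the embedding of the free group -/
abbrev il (f : F) : G := SemidirectProduct.inl f

theorem vt_eq_il (g : G) : vt g = vt (il g.left) := by
  rw [vt_eq]
  simp [SemidirectProduct.mul_left, SemidirectProduct.inv_left]

theorem vt_il_eq {f f' : F} : vt (il f) = vt (il f') ↔ f⁻¹ * f' ∈ Subgroup.zpowers ga := by
  rw [vt_eq, ← map_inv, ← map_mul]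
  rfl

theorem vt_mul_il (g : G) (i : Fin 3) :
    vt (g * il (FreeGroup.of i)) = vt (il (g.left * FreeGroup.of i)) := by
  rw [vt_eq_il, SemidirectProduct.mul_left, SemidirectProduct.left_inl, theta_apply, phi_of,
    vt_il_eq]
  have : (g.left * (FreeGroup.of i * ga ^ (g.right.toAdd * ((i : ℕ) : ℤ))))⁻¹ *
      (g.left * FreeGroup.of i) = (ga ^ (g.right.toAdd * ((i : ℕ) : ℤ)))⁻¹ := by
    rw [mul_inv_rev, mul_inv_rev]
    group
  rw [this]
  exact inv_mem (Subgroup.zpow_mem_zpowers _ _)

/-! ### Normal forms of vertices -/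

/-- the stripped word of the inverse of `f` -/
def nfF (f : F) : List (Fin 3 × Bool) := (f⁻¹).toWord.dropWhile (fun x => x.1 = 0)

theorem nfF_mk (L : List (Fin 3 × Bool)) :
    nfF (FreeGroup.mk L)⁻¹ = (FreeGroup.reduce L).dropWhile (fun x => x.1 = 0) := by
  rw [nfF, inv_inv, FreeGroup.toWord_mk]

theorem toWord_cons (x : Fin 3 × Bool) (f : F) :
    (FreeGroup.mk [x] * f).toWord = FreeGroup.reduce (x :: f.toWord) := by
  rw [FreeGroup.toWord_mul, FreeGroup.toWord_mk]
  simp

theorem toWord_cons_pos {x : Fin 3 × Bool} {f : F} {L : List (Fin 3 × Bool)}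
    (h : f.toWord = (x.1, !x.2) :: L) : (FreeGroup.mk [x] * f).toWord = L := by
  rw [toWord_cons, FreeGroup.reduce.cons, FreeGroup.reduce_toWord, h]
  simp

theorem toWord_cons_neg {x : Fin 3 × Bool} {f : F}
    (h : ∀ L : List (Fin 3 × Bool), f.toWord ≠ (x.1, !x.2) :: L) :
    (FreeGroup.mk [x] * f).toWord = x :: f.toWord := by
  rw [toWord_cons, FreeGroup.reduce.cons, FreeGroup.reduce_toWord]
  cases e : f.toWord with
  | nil => rfl
  | cons y L =>
    have h1 : ¬ (x.1 = y.1 ∧ x.2 = !y.2) := by
      rintro ⟨h1, h2⟩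
      apply h L
      rw [e]
      congr 1
      refine Prod.ext h1.symm ?_
      rw [h2, Bool.not_not]
    simp [h1]

theorem drop_cons (x : Fin 3 × Bool) (hx : x.1 = 0) (f : F) :
    (FreeGroup.mk [x] * f).toWord.dropWhile (fun x => x.1 = 0) =
      f.toWord.dropWhile (fun x => x.1 = 0) := by
  by_cases h : ∃ L, f.toWord = (x.1, !x.2) :: L
  · obtain ⟨L, hL⟩ := h
    rw [toWord_cons_pos hL, hL, List.dropWhile_cons_of_pos]
    simpa using hx
  · push Not at h
    rw [toWord_cons_neg h, List.dropWhile_cons_of_pos]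
    simpa using hx

theorem drop_zpow (n : ℤ) (f : F) :
    (ga ^ n * f).toWord.dropWhile (fun x => x.1 = 0) =
      f.toWord.dropWhile (fun x => x.1 = 0) := by
  induction n using Int.induction_on generalizing f with
  | zero => simp
  | succ n ih =>
    rw [zpow_add, zpow_one, mul_assoc, ih]
    exact drop_cons (0, true) rfl f
  | pred n ih =>
    rw [zpow_sub, zpow_one, mul_assoc, ih]
    exact drop_cons (0, false) rfl f

theorem nfF_eq {f f' : F} (h : f⁻¹ * f' ∈ Subgroup.zpowers ga) : nfF f = nfF f' := by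
  obtain ⟨n, hn⟩ := Subgroup.mem_zpowers_iff.mp h
  have h1 : f⁻¹ = ga ^ n * f'⁻¹ := by rw [hn]; group
  rw [nfF, nfF, h1, drop_zpow]

/-- the normal form of a vertex -/
def nf : V → List (Fin 3 × Bool) :=
  Quotient.lift (fun g : G => nfF g.left) (by
    intro g h hgh
    apply nfF_eq
    have h1 : vt g = vt h := Quotient.sound hgh
    rwa [vt_eq_il g, vt_eq_il h, vt_il_eq] at h1)

theorem nf_vt (g : G) : nf (vt g) = nfF g.left := rfl

theorem nf_il (f : F) : nf (vt (il f)) = nfF f := rfl

/-- every vertex is the vertex of its normal form -/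
theorem vt_nf (v : V) : vt (il (FreeGroup.mk (nf v))⁻¹) = v := by
  obtain ⟨g, rfl⟩ := QuotientGroup.mk_surjective v
  change vt (il (FreeGroup.mk (nf (vt g)))⁻¹) = vt g
  rw [vt_eq_il g, nf_il, vt_il_eq, inv_inv]
  have h1 : (g.left⁻¹).toWord = (g.left⁻¹).toWord.takeWhile (fun x => x.1 = 0) ++ nfF g.left :=
    (List.takeWhile_append_dropWhile).symm
  have h2 : g.left⁻¹ = FreeGroup.mk ((g.left⁻¹).toWord.takeWhile (fun x => x.1 = 0)) *
      FreeGroup.mk (nfF g.left) := by
    rw [FreeGroup.mul_mk, ← h1, FreeGroup.mk_toWord]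
  have h3 : FreeGroup.mk (nfF g.left) * g.left =
      (FreeGroup.mk ((g.left⁻¹).toWord.takeWhile (fun x => x.1 = 0)))⁻¹ := by
    rw [eq_comm, inv_eq_iff_mul_eq_one, ← mul_assoc, ← h2, inv_mul_cancel]
  rw [h3]
  apply inv_mem
  have h4 : ∀ L : List (Fin 3 × Bool), (∀ x ∈ L, x.1 = 0) →
      (FreeGroup.mk L : F) ∈ Subgroup.zpowers ga := by
    intro L
    induction L with
    | nil => intro _; exact one_mem _
    | cons x L ih =>
      intro hL
      have e : (FreeGroup.mk (x :: L) : F) = FreeGroup.mk [x] * FreeGroup.mk L := by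
        rw [FreeGroup.mul_mk]; rfl
      rw [e]
      refine mul_mem ?_ (ih (fun y hy => hL y (List.mem_cons_of_mem _ hy)))
      obtain ⟨i, b⟩ := x
      have hi : i = 0 := hL (i, b) (List.mem_cons_self ..)
      subst hi
      cases b with
      | true => exact Subgroup.mem_zpowers ga
      | false => exact inv_mem (Subgroup.mem_zpowers ga)
  apply h4
  intro x hx
  have := List.mem_takeWhile_imp hx
  simpa using this

/-- the tree -/
def T : SimpleGraph V where
  Adj x y := x ≠ y ∧ ∃ (g : G) (i : Fin 3), i ≠ 0 ∧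
    ((x = vt g ∧ y = vt (g * il (FreeGroup.of i))) ∨ (y = vt g ∧ x = vt (g * il (FreeGroup.of i))))
  symm := ⟨fun x y h => ⟨h.1.symm, by
    obtain ⟨g, i, hi, hg⟩ := h.2; exact ⟨g, i, hi, hg.symm⟩⟩⟩
  loopless := ⟨fun x h => h.1 rfl⟩

/-- exponent sum of the second and third generator -/
def expF : F →* Multiplicative ℤ :=
  FreeGroup.lift (fun i => if i = 0 then 1 else Multiplicative.ofAdd 1)

theorem expF_of (i : Fin 3) :
    expF (FreeGroup.of i) = if i = 0 then 1 else Multiplicative.ofAdd 1 := FreeGroup.lift_apply_of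

theorem expF_phi (n : ℤ) (f : F) : expF (phi n f) = expF f := by
  have h : expF.comp (phi n) = expF := by
    ext i
    rw [MonoidHom.comp_apply, phi_of, map_mul, map_zpow]
    have : expF ga = 1 := by rw [expF_of]; simp
    rw [this, one_zpow, mul_one]
  exact DFunLike.congr_fun h f

/-- its extension to `G` -/
def expG : G →* Multiplicative ℤ where
  toFun g := expF g.left
  map_one' := by simp
  map_mul' g h := by
    rw [SemidirectProduct.mul_left, map_mul, theta_apply, expF_phi]

theorem expG_apply (g : G) : expG g = expF g.left := rfl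

/-- the level of a vertex -/
def lvl : V → Multiplicative ℤ :=
  Quotient.lift (fun g : G => expG g) (by
    intro g h hgh
    have h1 : vt g = vt h := Quotient.sound hgh
    rw [vt_eq_il g, vt_eq_il h, vt_il_eq] at h1
    obtain ⟨n, hn⟩ := Subgroup.mem_zpowers_iff.mp h1
    have h2 : h.left = g.left * ga ^ n := by rw [hn]; group
    have : expF ga = 1 := by rw [expF_of]; simp
    change expF g.left = expF h.left
    rw [h2, map_mul, map_zpow, this, one_zpow, mul_one])

theorem lvl_vt (g : G) : lvl (vt g) = expG g := rfl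

theorem expG_gen {i : Fin 3} (hi : i ≠ 0) :
    expG (il (FreeGroup.of i)) = Multiplicative.ofAdd 1 := by
  rw [expG_apply, SemidirectProduct.left_inl, expF_of, if_neg hi]

theorem vt_ne (g : G) {i : Fin 3} (hi : i ≠ 0) : vt g ≠ vt (g * il (FreeGroup.of i)) := by
  intro h
  have := congrArg lvl h
  rw [lvl_vt, lvl_vt, map_mul, expG_gen hi] at this
  simp at this

theorem adj_vt (g : G) {i : Fin 3} (hi : i ≠ 0) : T.Adj (vt g) (vt (g * il (FreeGroup.of i))) :=
  ⟨vt_ne g hi, g, i, hi, Or.inl ⟨rfl, rfl⟩⟩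

theorem adj_il (f : F) {i : Fin 3} (hi : i ≠ 0) :
    T.Adj (vt (il f)) (vt (il (f * FreeGroup.of i))) := by
  have : il (f * FreeGroup.of i) = il f * il (FreeGroup.of i) :=
    map_mul (SemidirectProduct.inl : F →* G) _ _
  rw [this]; exact adj_vt _ hi

/-- the parent of a vertex -/
def par (v : V) : V := vt (il (FreeGroup.mk (nf v).tail)⁻¹)

/-- the root -/
abbrev o : V := vt 1

theorem nf_ne_nil {v : V} (h : v ≠ o) : nf v ≠ [] := by
  intro e
  apply h
  rw [← vt_nf v, e]
  rfl

theorem nf_head (v : V) {x : Fin 3 × Bool} {L : List (Fin 3 × Bool)} (h : nf v = x :: L) :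
    x.1 ≠ 0 := by
  obtain ⟨g, rfl⟩ := QuotientGroup.mk_surjective v
  change nfF g.left = x :: L at h
  intro hx
  have h1 : nfF g.left ≠ [] := by rw [h]; simp
  have h2 := List.head_dropWhile_not (fun x : Fin 3 × Bool => decide (x.1 = 0)) h1
  have h3 : (nfF g.left).head h1 = x := by simp [h]
  have h4 : ((nfF g.left).head h1).1 = 0 := by rw [h3]; exact hx
  have h5 : decide (((nfF g.left).head h1).1 = 0) = false := h2
  rw [decide_eq_false_iff_not] at h5
  exact h5 h4

theorem par_adj (v : V) (hv : v ≠ o) : T.Adj v (par v) := by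
  obtain ⟨x, L, hL⟩ := List.exists_cons_of_ne_nil (nf_ne_nil hv)
  have hx := nf_head v hL
  have h1 : v = vt (il (FreeGroup.mk (x :: L))⁻¹) := by rw [← hL, vt_nf]
  have h2 : par v = vt (il (FreeGroup.mk L)⁻¹) := by rw [par, hL]; rfl
  have e : (FreeGroup.mk (x :: L) : F) = FreeGroup.mk [x] * FreeGroup.mk L := by
    rw [FreeGroup.mul_mk]; rfl
  obtain ⟨i, b⟩ := x
  cases b with
  | false =>
    have e2 : (FreeGroup.mk ((i, false) :: L) : F)⁻¹ = (FreeGroup.mk L)⁻¹ * FreeGroup.of i := by
      rw [e, mul_inv_rev]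
      congr 1
    rw [h2]
    conv_lhs => rw [h1, e2]
    exact (adj_il _ hx).symm
  | true =>
    have e2 : (FreeGroup.mk L : F)⁻¹ = (FreeGroup.mk ((i, true) :: L))⁻¹ * FreeGroup.of i := by
      rw [e, mul_inv_rev, mul_assoc]
      have : (FreeGroup.mk [(i, true)] : F) = FreeGroup.of i := rfl
      rw [this, inv_mul_cancel, mul_one]
    rw [h2, e2]
    conv_lhs => rw [h1]
    exact adj_il _ hx

theorem par_lt (v : V) (hv : v ≠ o) : (nf (par v)).length < (nf v).length := by
  obtain ⟨x, L, hL⟩ := List.exists_cons_of_ne_nil (nf_ne_nil hv)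
  have h2 : par v = vt (il (FreeGroup.mk L)⁻¹) := by rw [par, hL]; rfl
  rw [h2, nf_il, nfF_mk, hL, List.length_cons]
  have h3 : ((FreeGroup.reduce L).dropWhile (fun x => x.1 = 0)).length ≤
      (FreeGroup.reduce L).length := List.length_dropWhile_le _ _
  have h4 : (FreeGroup.reduce L).length ≤ L.length := by
    have := FreeGroup.norm_mk_le (L₁ := L)
    rwa [FreeGroup.norm, FreeGroup.toWord_mk] at this
  omega

theorem key_adj (f : F) {i : Fin 3} (hi : i ≠ 0) :
    (vt (il f) ≠ o ∧ par (vt (il f)) = vt (il (f * FreeGroup.of i))) ∨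
    (vt (il (f * FreeGroup.of i)) ≠ o ∧ par (vt (il (f * FreeGroup.of i))) = vt (il f)) := by
  have ho : nf o = [] := by
    rw [nf_vt]; simp [nfF]
  by_cases h : ∃ L, (f⁻¹).toWord = (i, true) :: L
  · left
    obtain ⟨L, hL⟩ := h
    have h1 : nf (vt (il f)) = (i, true) :: L := by
      rw [nf_il, nfF, hL, List.dropWhile_cons_of_neg]
      simpa using hi
    refine ⟨?_, ?_⟩
    · intro e
      rw [e, ho] at h1
      simp at h1
    · rw [par, h1, List.tail_cons]
      congr 2
      have h2 : f⁻¹ = FreeGroup.of i * FreeGroup.mk L := by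
        rw [← FreeGroup.mk_toWord (x := f⁻¹), hL]
        change _ = FreeGroup.mk [(i, true)] * FreeGroup.mk L
        rw [FreeGroup.mul_mk]; rfl
      rw [inv_eq_iff_eq_inv, mul_inv_rev, h2, inv_mul_cancel_left]
  · right
    push Not at h
    have h1 : ((f * FreeGroup.of i)⁻¹).toWord = (i, false) :: (f⁻¹).toWord := by
      rw [mul_inv_rev]
      exact toWord_cons_neg (x := (i, false)) h
    have h2 : nf (vt (il (f * FreeGroup.of i))) = (i, false) :: (f⁻¹).toWord := by
      rw [nf_il, nfF, h1, List.dropWhile_cons_of_neg]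
      simpa using hi
    refine ⟨?_, ?_⟩
    · intro e
      rw [e, ho] at h2
      simp at h2
    · rw [par, h2, List.tail_cons, FreeGroup.mk_toWord, inv_inv]

theorem T_isTree : T.IsTree := by
  refine isTree_of_parent (par := par) (o := o) (fun v => (nf v).length) par_adj par_lt ?_
  rintro u v ⟨-, g, i, hi, ⟨rfl, rfl⟩ | ⟨rfl, rfl⟩⟩
  · rw [vt_mul_il, vt_eq_il g]
    exact key_adj _ hi
  · rw [vt_mul_il, vt_eq_il g]
    exact (key_adj _ hi).symm

end Pool.Agent.W5h62.VRC
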