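import Mathlib
import Pool.Agent.W5h62.VRC.Tree

set_option autoImplicit false

/-! The action of Gersten's group on its tree, and a cyclic subgroup which is not a virtual
retract. -/

namespace Pool.Agent.W5h62.VRC

theorem smul_vt (g h : G) : g • vt h = vt (g * h) := rfl

theorem exists_vt (v : V) : ∃ g, v = vt g := ⟨v.out, (Quotient.out_eq v).symm⟩

theorem T_smul (g : G) (u v : V) (h : T.Adj u v) : T.Adj (g • u) (g • v) := by
  obtain ⟨-, h', i, hi, ⟨rfl, rfl⟩ | ⟨rfl, rfl⟩⟩ := h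
  · rw [smul_vt, smul_vt, ← mul_assoc]
    exact adj_vt _ hi
  · rw [smul_vt, smul_vt, ← mul_assoc]
    exact (adj_vt _ hi).symm

theorem lvl_smul (g : G) (v : V) : lvl (g • v) = expG g * lvl v := by
  obtain ⟨h, rfl⟩ := exists_vt v
  rw [smul_vt, lvl_vt, lvl_vt, map_mul]

theorem T_noinv (g : G) (u v : V) (h : T.Adj u v) : ¬ (g • u = v ∧ g • v = u) := by
  rintro ⟨h1, h2⟩
  have h3 := congrArg (fun w => (lvl w).toAdd) h1
  have h4 := congrArg (fun w => (lvl w).toAdd) h2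
  simp only [lvl_smul, toAdd_mul] at h3 h4
  have h5 : (lvl u).toAdd = (lvl v).toAdd := by omega
  obtain ⟨-, h', i, hi, ⟨rfl, rfl⟩ | ⟨rfl, rfl⟩⟩ := h
  · rw [lvl_vt, lvl_vt, map_mul, expG_gen hi, toAdd_mul, toAdd_ofAdd] at h5
    omega
  · rw [lvl_vt, lvl_vt, map_mul, expG_gen hi, toAdd_mul, toAdd_ofAdd] at h5
    omega

theorem orbV : ∃ S : Finset V, ∀ v : V, ∃ g : G, g • v ∈ S := by
  refine ⟨{o}, ?_⟩
  intro v
  obtain ⟨h, rfl⟩ := exists_vt v
  refine ⟨h⁻¹, ?_⟩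
  rw [smul_vt, inv_mul_cancel]
  exact Finset.mem_singleton_self _

theorem orbE : ∃ E : Finset (V × V), ∀ u v : V, T.Adj u v → ∃ g : G, (g • u, g • v) ∈ E := by
  classical
  refine ⟨Finset.univ.biUnion (fun i : Fin 3 => {(o, vt (il (FreeGroup.of i))),
    (vt (il (FreeGroup.of i)), o)}), ?_⟩
  rintro u v ⟨-, h', i, hi, ⟨rfl, rfl⟩ | ⟨rfl, rfl⟩⟩
  · refine ⟨h'⁻¹, ?_⟩
    rw [smul_vt, smul_vt, inv_mul_cancel, inv_mul_cancel_left]
    rw [Finset.mem_biUnion]
    exact ⟨i, Finset.mem_univ _, by simp⟩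
  · refine ⟨h'⁻¹, ?_⟩
    rw [smul_vt, smul_vt, inv_mul_cancel, inv_mul_cancel_left]
    rw [Finset.mem_biUnion]
    exact ⟨i, Finset.mem_univ _, by simp⟩

theorem stab_o : MulAction.stabilizer G o = S := by
  ext g
  rw [MulAction.mem_stabilizer_iff, smul_vt, mul_one, vt_eq, mul_one, SemidirectProduct.inv_left,
    mem_S, theta_apply]
  constructor
  · intro h
    obtain ⟨n, hn⟩ := Subgroup.mem_zpowers_iff.mp h
    have h1 : phi (g.right.toAdd) (ga ^ n) = g.left⁻¹ := by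
      rw [hn, phi_phi]
      change phi (g.right.toAdd + - g.right.toAdd) _ = _
      rw [add_neg_cancel, phi_zero]; rfl
    rw [map_zpow, phi_a] at h1
    rw [← inv_mem_iff, ← h1]
    exact Subgroup.zpow_mem_zpowers _ _
  · intro h
    obtain ⟨n, hn⟩ := Subgroup.mem_zpowers_iff.mp h
    rw [← hn, ← zpow_neg, map_zpow, phi_a]
    exact Subgroup.zpow_mem_zpowers _ _

theorem stabV (v : V) : ∃ n : ℕ,
    Nonempty (↥(MulAction.stabilizer G v) ≃* Multiplicative (Fin n → ℤ)) := by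
  refine ⟨2, ?_⟩
  obtain ⟨h, rfl⟩ := exists_vt v
  have e1 : MulAction.stabilizer G o ≃* MulAction.stabilizer G (vt h) :=
    MulAction.stabilizerEquivStabilizer (g := h) (by rw [smul_vt, mul_one])
  have e2 : MulAction.stabilizer G o ≃* S := MulEquiv.subgroupCongr stab_o
  have e3 : Multiplicative (Fin 2 → ℤ) ≃* S := MonoidHom.ofInjective psi_injective
  exact ⟨e1.symm.trans (e2.trans e3.symm)⟩

/-- the elementary matrix -/
def elem (n : ℤ) : Matrix.SpecialLinearGroup (Fin 2) ℤ :=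
  ⟨!![1, n; 0, 1], by simp [Matrix.det_fin_two]⟩

/-- the Weyl element -/
def wel : Matrix.SpecialLinearGroup (Fin 2) ℤ := ⟨!![0, 1; -1, 0], by simp [Matrix.det_fin_two]⟩

theorem elem_coe (n : ℤ) : (elem n : Matrix (Fin 2) (Fin 2) ℤ) = !![1, n; 0, 1] := rfl

theorem wel_coe : (wel : Matrix (Fin 2) (Fin 2) ℤ) = !![0, 1; -1, 0] := rfl

/-- a representation of the free group of rank three -/
def rep : F →* Matrix.SpecialLinearGroup (Fin 2) ℤ :=
  FreeGroup.lift (fun i => if i = 0 then elem 1 else wel)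

theorem elem_add (m n : ℤ) : elem (m + n) = elem m * elem n := by
  apply Subtype.ext
  rw [Matrix.SpecialLinearGroup.coe_mul, elem_coe, elem_coe, elem_coe]
  ext i j
  fin_cases i <;> fin_cases j <;> simp [Matrix.mul_apply, Fin.sum_univ_two, add_comm]

/-- `elem` as a homomorphism -/
def elemHom : Multiplicative ℤ →* Matrix.SpecialLinearGroup (Fin 2) ℤ where
  toFun n := elem n.toAdd
  map_one' := by
    apply Subtype.ext
    rw [Matrix.SpecialLinearGroup.coe_one, elem_coe]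
    ext i j
    fin_cases i <;> fin_cases j <;> simp
  map_mul' m n := elem_add _ _

theorem rep_a (n : ℤ) : rep (ga ^ n) = elem n := by
  rw [map_zpow]
  have h1 : rep ga = elemHom (Multiplicative.ofAdd 1) := by
    rw [rep, FreeGroup.lift_apply_of, if_pos rfl]; rfl
  rw [h1, ← map_zpow, ← ofAdd_zsmul, smul_eq_mul, mul_one]
  rfl

theorem rep_s {i : Fin 3} (hi : i ≠ 0) : rep (FreeGroup.of i) = wel := by
  rw [rep, FreeGroup.lift_apply_of, if_neg hi]

theorem conj_zero {i : Fin 3} (hi : i ≠ 0) {n m : ℤ}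
    (h : (FreeGroup.of i)⁻¹ * ga ^ n * FreeGroup.of i = ga ^ m) : n = 0 := by
  have h1 : ga ^ n * FreeGroup.of i = FreeGroup.of i * ga ^ m := by rw [← h]; group
  have h2 := congrArg rep h1
  rw [map_mul, map_mul, rep_a, rep_a, rep_s hi] at h2
  have h3 := congrArg (fun M : Matrix.SpecialLinearGroup (Fin 2) ℤ =>
    (M : Matrix (Fin 2) (Fin 2) ℤ) 0 0) h2
  simp only [Matrix.SpecialLinearGroup.coe_mul, elem_coe, wel_coe, Matrix.mul_apply,
    Fin.sum_univ_two] at h3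
  simpa using h3

/-- the stable letter -/
def tt : G := SemidirectProduct.inr (Multiplicative.ofAdd 1)

theorem base_edge {i : Fin 3} (hi : i ≠ 0) {x : G} (h1 : x • o = o)
    (h2 : x • vt (il (FreeGroup.of i)) = vt (il (FreeGroup.of i))) : x ∈ Subgroup.zpowers tt := by
  have h3 : x ∈ MulAction.stabilizer G o := h1
  rw [stab_o, mem_S] at h3
  obtain ⟨n, hn⟩ := Subgroup.mem_zpowers_iff.mp h3
  rw [smul_vt, vt_mul_il, vt_il_eq, ← hn] at h2
  obtain ⟨m, hm⟩ := Subgroup.mem_zpowers_iff.mp h2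
  have h4 : (FreeGroup.of i)⁻¹ * ga ^ n * FreeGroup.of i = ga ^ (-m) := by
    rw [zpow_neg, hm]; group
  have h5 := conj_zero hi h4
  rw [h5, zpow_zero] at hn
  rw [Subgroup.mem_zpowers_iff]
  refine ⟨x.right.toAdd, ?_⟩
  rw [tt, ← map_zpow, ← ofAdd_zsmul, smul_eq_mul, mul_one]
  ext
  · rw [← hn]; rfl
  · rfl

theorem stabE (u v : V) (h : T.Adj u v) :
    IsCyclic ↥(MulAction.stabilizer G u ⊓ MulAction.stabilizer G v) := by
  have key : ∀ (g : G) (i : Fin 3), i ≠ 0 → ∀ x : G, x • vt g = vt g →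
      x • vt (g * il (FreeGroup.of i)) = vt (g * il (FreeGroup.of i)) →
      x ∈ Subgroup.zpowers (g * tt * g⁻¹) := by
    intro g i hi x h1 h2
    have h3 : g⁻¹ * x * g ∈ Subgroup.zpowers tt := by
      apply base_edge hi
      · have := congrArg (fun w => g⁻¹ • w) h1
        simp only [smul_vt] at this
        rw [smul_vt, mul_one, mul_assoc]
        rw [this, inv_mul_cancel]
      · have := congrArg (fun w => g⁻¹ • w) h2
        simp only [smul_vt] at this
        rw [smul_vt, mul_assoc, mul_assoc]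
        rw [this, inv_mul_cancel_left]
    obtain ⟨n, hn⟩ := Subgroup.mem_zpowers_iff.mp h3
    rw [Subgroup.mem_zpowers_iff]
    refine ⟨n, ?_⟩
    rw [conj_zpow, hn]; group
  have hc : ∀ (g : G) (H : Subgroup G), H ≤ Subgroup.zpowers g → IsCyclic H := by
    intro g H hH
    exact Subgroup.isCyclic_of_le hH
  obtain ⟨-, g, i, hi, ⟨rfl, rfl⟩ | ⟨rfl, rfl⟩⟩ := h
  · apply hc (g * tt * g⁻¹)
    rintro x ⟨h1, h2⟩
    exact key g i hi x h1 h2
  · apply hc (g * tt * g⁻¹)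
    rintro x ⟨h1, h2⟩
    exact key g i hi x h2 h1

/-! ### No virtual retraction -/

/-- the element `a` of `G` -/
abbrev aa : G := il ga

theorem tt_conj (i : Fin 3) : tt * il (FreeGroup.of i) * tt⁻¹ =
    il (FreeGroup.of i) * aa ^ ((i : ℕ) : ℤ) := by
  have h1 : tt * il (FreeGroup.of i) * tt⁻¹ = il (theta (Multiplicative.ofAdd 1) (FreeGroup.of i)) := by
    exact (SemidirectProduct.inl_aut (φ := theta) _ _).symm
  rw [h1, theta_apply, phi_of]
  rw [show il (FreeGroup.of i * ga ^ ((Multiplicative.ofAdd (1 : ℤ)).toAdd * ((i : ℕ) : ℤ))) =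
    il (FreeGroup.of i) * il (ga ^ ((Multiplicative.ofAdd (1 : ℤ)).toAdd * ((i : ℕ) : ℤ))) from
    map_mul (SemidirectProduct.inl : F →* G) _ _]
  rw [show il (ga ^ ((Multiplicative.ofAdd (1 : ℤ)).toAdd * ((i : ℕ) : ℤ))) =
    il ga ^ ((Multiplicative.ofAdd (1 : ℤ)).toAdd * ((i : ℕ) : ℤ)) from
    map_zpow (SemidirectProduct.inl : F →* G) _ _]
  rw [toAdd_ofAdd, one_mul]

theorem tt_aa : Commute tt aa := by
  have := tt_conj 0
  rw [show (((0 : Fin 3) : ℕ) : ℤ) = 0 from rfl, zpow_zero, mul_one, mul_inv_eq_iff_eq_mul] at this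
  exact this

theorem conj_tt (i : Fin 3) : (il (FreeGroup.of i))⁻¹ * tt * il (FreeGroup.of i) =
    aa ^ ((i : ℕ) : ℤ) * tt := by
  have := tt_conj i
  rw [mul_inv_eq_iff_eq_mul] at this
  rw [mul_assoc, this]; group

theorem aa_zpow_left (n : ℤ) : (aa ^ n).left = ga ^ n := by
  rw [show aa ^ n = il (ga ^ n) from (map_zpow (SemidirectProduct.inl : F →* G) _ _).symm]
  rfl

theorem aa_zpow_inj {m n : ℤ} (h : aa ^ m = aa ^ n) : m = n := by
  apply ga_zpow_inj
  rw [← aa_zpow_left, ← aa_zpow_left, h]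

/-- **The subgroup `⟨a⟩` is not a virtual retract.** -/
theorem no_retract (K : Subgroup G) (hK : K.FiniteIndex)
    (r : K →* G) (hr : ∀ k : K, r k ∈ Subgroup.zpowers aa)
    (hr2 : ∀ k : K, (k : G) ∈ Subgroup.zpowers aa → r k = (k : G)) : False := by
  classical
  -- the exponent of the retraction
  have hex : ∀ k : K, ∃ n : ℤ, r k = aa ^ n := fun k => by
    obtain ⟨n, hn⟩ := Subgroup.mem_zpowers_iff.mp (hr k)
    exact ⟨n, hn.symm⟩
  choose e he using hex
  have e_mul : ∀ x y : K, e (x * y) = e x + e y := by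
    intro x y
    apply aa_zpow_inj
    rw [← he, map_mul, he, he, zpow_add]
  have e_inv : ∀ x : K, e x⁻¹ = - e x := by
    intro x
    apply aa_zpow_inj
    rw [← he, map_inv, he, zpow_neg]
  let N : Subgroup G := K.normalCore
  have hN : N.FiniteIndex := inferInstance
  have hNK : ∀ x, x ∈ N → x ∈ K := fun x hx => K.normalCore_le hx
  have hNn : N.Normal := inferInstance
  -- extension by zero
  let E : G → ℤ := fun x => if h : x ∈ K then e ⟨x, h⟩ else 0
  have E_of : ∀ (x : G) (h : x ∈ K), E x = e ⟨x, h⟩ := fun x h => dif_pos h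
  have E_mul : ∀ x y : G, x ∈ N → y ∈ N → E (x * y) = E x + E y := by
    intro x y hx hy
    rw [E_of x (hNK x hx), E_of y (hNK y hy), E_of (x * y) (hNK _ (mul_mem hx hy)), ← e_mul]
    rfl
  have E_conj : ∀ x y : G, x ∈ N → y ∈ N → E (x * y * x⁻¹) = E y := by
    intro x y hx hy
    have h1 := E_mul x⁻¹ (x * y) (inv_mem hx) (mul_mem hx hy)
    have h2 := E_mul (x * y) x⁻¹ (mul_mem hx hy) (inv_mem hx)
    rw [inv_mul_cancel_left] at h1
    rw [h2, h1]; ring
  set m : ℕ := N.index with hm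
  have hm0 : m ≠ 0 := Subgroup.FiniteIndex.index_ne_zero
  have hpow : ∀ x : G, x ^ m ∈ N := fun x => Subgroup.pow_index_mem N x
  have hcm : ∀ g x : G, g * x ^ m * g⁻¹ ∈ N := fun g x => hNn.conj_mem _ (hpow x) g
  -- the vector of an element
  let f : G → (G ⧸ N) → ℤ := fun x q => E (q.out * x ^ m * q.out⁻¹)
  have f_mk : ∀ x g : G, f x (g : G ⧸ N) = E (g * x ^ m * g⁻¹) := by
    intro x g
    obtain ⟨n, hn⟩ := QuotientGroup.mk_out_eq_mul N g
    change E ((g : G ⧸ N).out * x ^ m * ((g : G ⧸ N).out)⁻¹) = _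
    rw [hn]
    have h1 : g * (n : G) * x ^ m * (g * (n : G))⁻¹ =
        (g * (n : G) * g⁻¹) * (g * x ^ m * g⁻¹) * (g * (n : G) * g⁻¹)⁻¹ := by group
    rw [h1]
    exact E_conj _ _ (hNn.conj_mem _ n.2 g) (hcm g x)
  have f_mul : ∀ x y : G, Commute x y → ∀ q, f (x * y) q = f x q + f y q := by
    intro x y hxy q
    change E (q.out * (x * y) ^ m * q.out⁻¹) = _
    rw [hxy.mul_pow]
    have h1 : q.out * (x ^ m * y ^ m) * q.out⁻¹ =
        (q.out * x ^ m * q.out⁻¹) * (q.out * y ^ m * q.out⁻¹) := by group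
    rw [h1, E_mul _ _ (hcm _ _) (hcm _ _)]
  have : Finite (G ⧸ N) := Subgroup.finite_quotient_of_finiteIndex
  have : Fintype (G ⧸ N) := Fintype.ofFinite _
  have f_conj : ∀ x g : G, ∑ q, (f (g⁻¹ * x * g) q) ^ 2 = ∑ q, (f x q) ^ 2 := by
    intro x g
    have h1 : ∀ q : G ⧸ N, f (g⁻¹ * x * g) q = f x (q * ((g⁻¹ : G) : G ⧸ N)) := by
      intro q
      obtain ⟨k, rfl⟩ := QuotientGroup.mk_surjective q
      rw [← QuotientGroup.mk_mul, f_mk, f_mk]
      congr 1
      have h2 : (g⁻¹ * x * g) ^ m = g⁻¹ * x ^ m * g := by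
        have := conj_pow (i := m) (a := g⁻¹) (b := x)
        rwa [inv_inv] at this
      rw [h2]; group
    simp_rw [h1]
    exact Fintype.sum_equiv (Equiv.mulRight ((g⁻¹ : G) : G ⧸ N)) _ _ (fun q => rfl)
  have h1 := f_conj tt (il (FreeGroup.of 1))
  have h2 := f_conj tt (il (FreeGroup.of 2))
  rw [conj_tt] at h1 h2
  have e1 : aa ^ (((1 : Fin 3) : ℕ) : ℤ) = aa := by
    change aa ^ (1 : ℤ) = aa
    exact zpow_one _
  have e2 : aa ^ (((2 : Fin 3) : ℕ) : ℤ) = aa * aa := by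
    change aa ^ (2 : ℤ) = aa * aa
    exact zpow_two _
  rw [e1] at h1
  rw [e2] at h2
  have g1 : ∀ q, f (aa * tt) q = f aa q + f tt q := f_mul _ _ tt_aa.symm
  have g2 : ∀ q, f (aa * aa * tt) q = f aa q + f aa q + f tt q := by
    intro q
    rw [f_mul _ _ (tt_aa.symm.mul_left tt_aa.symm), f_mul _ _ (Commute.refl _)]
  simp_rw [g1] at h1
  simp_rw [g2] at h2
  have h3 : ∑ q, (f aa q) ^ 2 + 2 * ∑ q, f aa q * f tt q = 0 := by
    have : ∑ q, (f aa q + f tt q) ^ 2 =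
        ∑ q, (f aa q) ^ 2 + 2 * ∑ q, f aa q * f tt q + ∑ q, (f tt q) ^ 2 := by
      rw [Finset.mul_sum, ← Finset.sum_add_distrib, ← Finset.sum_add_distrib]
      exact Finset.sum_congr rfl (fun q _ => by ring)
    linarith
  have h4 : 4 * ∑ q, (f aa q) ^ 2 + 4 * ∑ q, f aa q * f tt q = 0 := by
    have : ∑ q, (f aa q + f aa q + f tt q) ^ 2 =
        4 * ∑ q, (f aa q) ^ 2 + 4 * ∑ q, f aa q * f tt q + ∑ q, (f tt q) ^ 2 := by
      rw [Finset.mul_sum, Finset.mul_sum, ← Finset.sum_add_distrib, ← Finset.sum_add_distrib]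
      exact Finset.sum_congr rfl (fun q _ => by ring)
    linarith
  have h5 : ∑ q, (f aa q) ^ 2 = 0 := by linarith
  rw [Finset.sum_eq_zero_iff_of_nonneg (fun q _ => sq_nonneg _)] at h5
  have h6 := h5 ((1 : G) : G ⧸ N) (Finset.mem_univ _)
  rw [f_mk, one_mul, inv_one, mul_one] at h6
  have h7 : aa ^ m ∈ K := hNK _ (hpow aa)
  rw [E_of _ h7, sq_eq_zero_iff] at h6
  have h8 := hr2 ⟨aa ^ m, h7⟩ (Subgroup.npow_mem_zpowers aa m)
  rw [he, h6] at h8
  change aa ^ (0 : ℤ) = aa ^ m at h8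
  rw [← zpow_natCast] at h8
  have h9 := aa_zpow_inj h8
  omega

end Pool.Agent.W5h62.VRC
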